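import Pool.Agent.H507R3.PCHull

/-!
# MP_f3a7de_an: the planar stationarity inclusion set of a strictly polyconvex function need not be
rank-one convex

There is a strictly polyconvex `C¹` function on `10 × 2` matrices, an `R > 0` and a matrix
`A ∉ K_R` with `F A ≤ 0` for every rank-one convex `F` that is nonpositive on `K_R`.
-/

set_option autoImplicit false
open Set Matrix

namespace Pool.Agent.Results.MP_f3a7de_an.BranchingLaminate

/-- Index set of all minors (of orders `1` and `2`) of an `n × 2` matrix: the order minus one, the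
rows and the columns. -/
abbrev MinorIdx (n : ℕ) : Type := (Σ k : Fin (min n 2),
        {r : Fin (k.1 + 1) → Fin n // StrictMono r} ×
        {c : Fin (k.1 + 1) → Fin 2 // StrictMono c})

/-- The vector of all minors of `X`. -/
noncomputable def minors {n : ℕ} (X : Fin n → Fin 2 → ℝ) : MinorIdx n → ℝ :=
  fun p => Matrix.det ((Matrix.of X).submatrix p.2.1.1 p.2.2.1)

/-- `f = g ∘ minors` with `g` strictly convex of class `C¹`. -/
def StrictlyPolyconvex {n : ℕ} (f : (Fin n → Fin 2 → ℝ) → ℝ) : Prop :=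
  ∃ g : (MinorIdx n → ℝ) → ℝ, StrictConvexOn ℝ Set.univ g ∧ ContDiff ℝ 1 g ∧
    ∀ X, f X = g (minors X)

/-- The matrix of partial derivatives of `f` at `X`. -/
noncomputable def gradM {n : ℕ} (f : (Fin n → Fin 2 → ℝ) → ℝ) (X : Fin n → Fin 2 → ℝ) :
    Matrix (Fin n) (Fin 2) ℝ :=
  Matrix.of fun i j => fderiv ℝ f X (fun a b => if a = i ∧ b = j then (1 : ℝ) else 0)

/-- The matrix `J`. -/
def J : Matrix (Fin 2) (Fin 2) ℝ := !![0, 1; -1, 0]

/-- `Y_X = Df(X) J`. -/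
noncomputable def YM {n : ℕ} (f : (Fin n → Fin 2 → ℝ) → ℝ) (X : Fin n → Fin 2 → ℝ) :
    Matrix (Fin n) (Fin 2) ℝ := gradM f X * J

/-- `Z_X = Xᵀ Y_X - f(X) J`. -/
noncomputable def ZM {n : ℕ} (f : (Fin n → Fin 2 → ℝ) → ℝ) (X : Fin n → Fin 2 → ℝ) :
    Matrix (Fin 2) (Fin 2) ℝ := (Matrix.of X)ᵀ * YM f X - f X • J

/-- Vertical stacking of three blocks into a `(2n+2) × 2` matrix. -/
def stack {n : ℕ} (X Y : Matrix (Fin n) (Fin 2) ℝ) (Z : Matrix (Fin 2) (Fin 2) ℝ) :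
    Matrix (Fin n ⊕ Fin n ⊕ Fin 2) (Fin 2) ℝ :=
  Matrix.of (Sum.elim X (Sum.elim Y Z))

/-- The inclusion set `K_f`. -/
def K {n : ℕ} (f : (Fin n → Fin 2 → ℝ) → ℝ) : Set (Matrix (Fin n ⊕ Fin n ⊕ Fin 2) (Fin 2) ℝ) :=
  {A | ∃ X : Fin n → Fin 2 → ℝ, A = stack (Matrix.of X) (YM f X) (ZM f X)}

/-- `K_R`: the points of `K_f` of Hilbert–Schmidt norm at most `R`. -/
def KR {n : ℕ} (f : (Fin n → Fin 2 → ℝ) → ℝ) (R : ℝ) :
    Set (Matrix (Fin n ⊕ Fin n ⊕ Fin 2) (Fin 2) ℝ) :=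
  {A | A ∈ K f ∧ ∑ i, ∑ j, A i j ^ 2 ≤ R ^ 2}

/-- Rank-one convexity: convex along all lines with direction `u ⊗ v`. -/
def RankOneConvex {ι : Type} (F : Matrix ι (Fin 2) ℝ → ℝ) : Prop :=
  ∀ (A : Matrix ι (Fin 2) ℝ) (u : ι → ℝ) (v : Fin 2 → ℝ),
    ConvexOn ℝ Set.univ (fun t : ℝ => F (A + t • Matrix.vecMulVec u v))

/-- The rank-one convex hull of a set. -/
def rcHull {ι : Type} (K : Set (Matrix ι (Fin 2) ℝ)) : Set (Matrix ι (Fin 2) ℝ) :=
  {A | ∀ F : Matrix ι (Fin 2) ℝ → ℝ, RankOneConvex F → (∀ B ∈ K, F B ≤ 0) → F A ≤ 0}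

open Pool.Agent.H507R3.PC

/-- the transfer map -/
noncomputable def Lm (P : T3) : Matrix (Fin 10 ⊕ Fin 10 ⊕ Fin 2) (Fin 2) ℝ :=
  stack (Matrix.of P.1) (Matrix.of P.2.1 * J) (Matrix.of P.2.2 * J)

lemma mulJ {m : ℕ} (Y : Fin m → Fin 2 → ℝ) (i : Fin m) :
    (Matrix.of Y * J) i 0 = - Y i 1 ∧ (Matrix.of Y * J) i 1 = Y i 0 := by
  constructor
  · simp [Matrix.mul_apply, Fin.sum_univ_two, J]
  · simp [Matrix.mul_apply, Fin.sum_univ_two, J]

lemma Lm_line (A B : T3) (t : ℝ) : Lm (A + t • B) = Lm A + t • Lm B := by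
  ext i j
  rcases i with i | i | i
  · rfl
  · have h1 := mulJ (A + t • B).2.1 i
    have h2 := mulJ A.2.1 i
    have h3 := mulJ B.2.1 i
    show (Matrix.of (A + t • B).2.1 * J) i j
      = (Matrix.of A.2.1 * J) i j + t • (Matrix.of B.2.1 * J) i j
    fin_cases j
    · show (Matrix.of (A + t • B).2.1 * J) i 0
        = (Matrix.of A.2.1 * J) i 0 + t * (Matrix.of B.2.1 * J) i 0
      rw [h1.1, h2.1, h3.1]
      show -(A.2.1 i 1 + t * B.2.1 i 1) = _
      ring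
    · show (Matrix.of (A + t • B).2.1 * J) i 1
        = (Matrix.of A.2.1 * J) i 1 + t * (Matrix.of B.2.1 * J) i 1
      rw [h1.2, h2.2, h3.2]
      rfl
  · have h1 := mulJ (A + t • B).2.2 i
    have h2 := mulJ A.2.2 i
    have h3 := mulJ B.2.2 i
    show (Matrix.of (A + t • B).2.2 * J) i j
      = (Matrix.of A.2.2 * J) i j + t • (Matrix.of B.2.2 * J) i j
    fin_cases j
    · show (Matrix.of (A + t • B).2.2 * J) i 0
        = (Matrix.of A.2.2 * J) i 0 + t * (Matrix.of B.2.2 * J) i 0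
      rw [h1.1, h2.1, h3.1]
      show -(A.2.2 i 1 + t * B.2.2 i 1) = _
      ring
    · show (Matrix.of (A + t • B).2.2 * J) i 1
        = (Matrix.of A.2.2 * J) i 1 + t * (Matrix.of B.2.2 * J) i 1
      rw [h1.2, h2.2, h3.2]
      rfl

lemma rot (y0 y1 x0 x1 : ℝ) (hx : x0 ^ 2 + x1 ^ 2 = 1) (h : y0 * x0 + y1 * x1 = 0) :
    -y1 = (-y1 * x0 + y0 * x1) * x0 ∧ y0 = (-y1 * x0 + y0 * x1) * x1 := by
  constructor
  · linear_combination (y1) * hx - x1 * h
  · linear_combination (-y0) * hx + x0 * h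

lemma Lm_rank_one (B : T3) (hB : Lam B) :
    ∃ (u : Fin 10 ⊕ Fin 10 ⊕ Fin 2 → ℝ) (v : Fin 2 → ℝ), Lm B = Matrix.vecMulVec u v := by
  obtain ⟨ξ, h1, h2, h3, u, h4⟩ := hB
  rw [Fin.sum_univ_two] at h1
  refine ⟨Sum.elim u (Sum.elim (fun i => -B.2.1 i 1 * ξ 0 + B.2.1 i 0 * ξ 1)
    (fun i => -B.2.2 i 1 * ξ 0 + B.2.2 i 0 * ξ 1)), ξ, ?_⟩
  ext i j
  rcases i with i | i | i
  · exact h4 i j
  · have h5 := h2 i
    rw [Fin.sum_univ_two] at h5
    have h6 := rot _ _ _ _ h1 h5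
    have h7 := mulJ B.2.1 i
    show (Matrix.of B.2.1 * J) i j = (-B.2.1 i 1 * ξ 0 + B.2.1 i 0 * ξ 1) * ξ j
    fin_cases j
    · show (Matrix.of B.2.1 * J) i 0 = (-B.2.1 i 1 * ξ 0 + B.2.1 i 0 * ξ 1) * ξ 0
      rw [h7.1]; exact h6.1
    · show (Matrix.of B.2.1 * J) i 1 = (-B.2.1 i 1 * ξ 0 + B.2.1 i 0 * ξ 1) * ξ 1
      rw [h7.2]; exact h6.2
  · have h5 := h3 i
    rw [Fin.sum_univ_two] at h5
    have h6 := rot _ _ _ _ h1 h5
    have h7 := mulJ B.2.2 i
    show (Matrix.of B.2.2 * J) i j = (-B.2.2 i 1 * ξ 0 + B.2.2 i 0 * ξ 1) * ξ j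
    fin_cases j
    · show (Matrix.of B.2.2 * J) i 0 = (-B.2.2 i 1 * ξ 0 + B.2.2 i 0 * ξ 1) * ξ 0
      rw [h7.1]; exact h6.1
    · show (Matrix.of B.2.2 * J) i 1 = (-B.2.2 i 1 * ξ 0 + B.2.2 i 0 * ξ 1) * ξ 1
      rw [h7.2]; exact h6.2

lemma J_inj {m : ℕ} {A B : Matrix (Fin m) (Fin 2) ℝ} (h : A * J = B * J) : A = B := by
  ext i j
  have h0 := congrFun (congrFun h i) 0
  have h1 := congrFun (congrFun h i) 1
  have a := mulJ (fun i j => A i j) i
  have b := mulJ (fun i j => B i j) i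
  change (A * J) i 0 = - A i 1 ∧ (A * J) i 1 = A i 0 at a
  change (B * J) i 0 = - B i 1 ∧ (B * J) i 1 = B i 0 at b
  rw [a.1, b.1] at h0
  rw [a.2, b.2] at h1
  fin_cases j
  · exact h1
  · exact neg_injective h0

/-- **Disproof.** Some strictly polyconvex `C¹` function `f` on `n × 2` matrices (`n = 10`) and some
`R > 0` have `K_R^{rc} ≠ K_R`: there is a matrix in the rank-one convex hull of `K_R` that does not
lie in `K_f` at all. -/
theorem result : ∃ (n : ℕ) (f : (Fin n → Fin 2 → ℝ) → ℝ) (R : ℝ), 1 ≤ n ∧ 0 < R ∧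
    StrictlyPolyconvex f ∧ ContDiff ℝ 1 f ∧
    ∃ A : Matrix (Fin n ⊕ Fin n ⊕ Fin 2) (Fin 2) ℝ, A ∈ rcHull (KR f R) ∧ A ∉ K f := by
  obtain ⟨g, hsc, hcd, hleaf⟩ := exists_g
  have hY : ∀ (i : Fin 24) (k : Fin 10) (c : Fin 2),
      fderiv ℝ (fun Z : Mt => g (Phi Z)) (XR i)
        (fun a b => if a = k ∧ b = c then (1 : ℝ) else 0 : Fin 10 → Fin 2 → ℝ) = YR i k c := by
    intro i k c
    rw [(hleaf i).2]
    rw [Finset.sum_eq_single k]
    · rw [Finset.sum_eq_single c]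
      · simp
      · intro b _ hb; simp [hb]
      · intro h; exact absurd (Finset.mem_univ c) h
    · intro b _ hb; simp [hb]
    · intro h; exact absurd (Finset.mem_univ k) h
  set f : (Fin 10 → Fin 2 → ℝ) → ℝ := fun Z => g (Phi Z) with hf
  -- leaves are in K
  have hleafK : ∀ i : Fin 24, Lm (pt3 (XR i)) = stack (Matrix.of (XR i)) (YM f (XR i)) (ZM f (XR i)) := by
    intro i
    have hg : gradM f (XR i) = Matrix.of (YR i) := by
      ext k c
      exact hY i k c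
    have h1 : Matrix.of (Yaff (XR i)) * J = YM f (XR i) := by
      unfold YM
      rw [hg, YR_eq]
    have h2 : Matrix.of (Zaff (XR i)) * J = ZM f (XR i) := by
      unfold ZM YM
      rw [hg, ← Matrix.mul_assoc]
      have h3 : (f (XR i)) • J = ((f (XR i)) • (1 : Matrix (Fin 2) (Fin 2) ℝ)) * J := by
        rw [smul_mul_assoc, one_mul]
      rw [h3, ← Matrix.sub_mul]
      congr 1
      ext a b
      show Zaff (XR i) a b = _
      rw [ZR_eq]
      have h4 : f (XR i) = (fZ i : ℝ) := (hleaf i).1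
      rw [h4, Matrix.sub_apply, Matrix.smul_apply, Matrix.one_apply, Matrix.mul_apply]
      simp only [Matrix.transpose_apply, Matrix.of_apply, smul_eq_mul]
    unfold Lm pt3
    rw [h1, h2]
  set nrm : Matrix (Fin 10 ⊕ Fin 10 ⊕ Fin 2) (Fin 2) ℝ → ℝ := fun P => ∑ i, ∑ j, P i j ^ 2 with hnrm
  have hn0 : ∀ P, 0 ≤ nrm P := by intro P; simp only [hnrm]; positivity
  set S : ℝ := ∑ i, nrm (Lm (pt3 (XR i))) with hS
  have hS0 : 0 ≤ S := Finset.sum_nonneg fun i _ => hn0 _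
  have hSi : ∀ i, nrm (Lm (pt3 (XR i))) ≤ S := fun i =>
    Finset.single_le_sum (f := fun i => nrm (Lm (pt3 (XR i)))) (fun i _ => hn0 _) (Finset.mem_univ i)
  have hfc : ContDiff ℝ 1 f := hcd.comp (contDiff_pi.mpr fun k => Phi_contDiff k)
  refine ⟨10, f, 1 + S, by norm_num, by linarith, ⟨g, hsc, hcd, fun X => rfl⟩, hfc,
    Lm (pt3 (PR 0)), ?_, ?_⟩
  · intro F hF hFK
    apply hull_point (F := fun P => F (Lm P))
    · intro A' B hB
      obtain ⟨u, v, huv⟩ := Lm_rank_one B hB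
      have h1 := hF (Lm A') u v
      simp only [Lm_line, huv]
      exact h1
    · intro i
      apply hFK
      refine ⟨⟨XR i, hleafK i⟩, ?_⟩
      have h1 := hSi i
      have h2 : S ≤ (1 + S) ^ 2 := by nlinarith
      exact h1.trans h2
  · rintro ⟨X, hX⟩
    have e1 : ∀ i j, PR 0 i j = X i j := fun i j => congrFun (congrFun hX (Sum.inl i)) j
    have e1' : PR 0 = X := by funext i j; exact e1 i j
    have e2 : Matrix.of (Yaff (PR 0)) * J = gradM f X * J := by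
      ext i j; exact congrFun (congrFun hX (Sum.inr (Sum.inl i))) j
    have e3 : Matrix.of (Zaff (PR 0)) * J = (Matrix.of X)ᵀ * YM f X - f X • J := by
      ext i j; exact congrFun (congrFun hX (Sum.inr (Sum.inr i))) j
    have e4 := J_inj e2
    have e5 : Matrix.of (Zaff (PR 0)) = (Matrix.of X)ᵀ * gradM f X - f X • (1 : Matrix (Fin 2) (Fin 2) ℝ) := by
      apply J_inj
      rw [e3, Matrix.sub_mul, smul_mul_assoc, one_mul, Matrix.mul_assoc]
      rfl
    rw [← e4, ← e1'] at e5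
    apply not_scalar
    have e6 := congrFun (congrFun e5 0) 1
    rw [Matrix.sub_apply, Matrix.smul_apply, Matrix.one_apply_ne (by decide), Matrix.mul_apply] at e6
    simpa using e6

end Pool.Agent.Results.MP_f3a7de_an.BranchingLaminate
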